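import Pool.Agent.H595.Dens.AlgX

/-!
# Numbers near the values of rational functions: the upper bound
-/

set_option autoImplicit false

namespace Pool.Agent.H595.RF

open Polynomial MeasureTheory Filter Topology Set Pool.Agent.H595.Dens Pool.Agent.H595.Alg

/-- `t` is not the value at `ξ` of a rational function of degree at most `m` -/
def NotVal (m : ℕ) (ξ t : ℝ) : Prop := ∀ P Q : ℤ[X], Q ≠ 0 → P.natDegree ≤ m → Q.natDegree ≤ m →
  t ≠ aeval ξ P / aeval ξ Q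

/-- the scales at which `t` is near a value -/
def rfScales (m : ℕ) (ξ t w : ℝ) : Set ℝ := {x | ∃ P Q : ℤ[X], Q ≠ 0 ∧ P.natDegree ≤ m ∧ Q.natDegree ≤ m ∧
  (∀ i, |(P.coeff i : ℝ)| ≤ Real.exp x) ∧ (∀ i, |(Q.coeff i : ℝ)| ≤ Real.exp x) ∧
  |t - aeval ξ P / aeval ξ Q| ≤ Real.exp x ^ (-w)}

/-- pairs of polynomials -/
def Pr (m : ℕ) : Type := {v : ℤ[X] × ℤ[X] // v.2 ≠ 0 ∧ v.1.natDegree ≤ m ∧ v.2.natDegree ≤ m}

noncomputable def rv {m : ℕ} (ξ : ℝ) (v : Pr m) : ℝ := aeval ξ v.1.1 / aeval ξ v.1.2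

noncomputable def ph {m : ℕ} (v : Pr m) : ℕ := max (hgt v.1.1) (hgt v.1.2)

noncomputable def pX {m : ℕ} (v : Pr m) : ℝ := Real.log (ph v)

noncomputable def pL {m : ℕ} (ξ t : ℝ) (v : Pr m) : ℝ := -Real.log |t - rv ξ v|

theorem one_le_ph {m : ℕ} (v : Pr m) : (1 : ℝ) ≤ ph v := by
  exact_mod_cast (one_le_hgt v.2.1).trans (le_max_right _ _)

theorem exp_pX {m : ℕ} (v : Pr m) : Real.exp (pX v) = ph v := by
  rw [pX, Real.exp_log]
  linarith [one_le_ph v]

theorem dist_pos {m : ℕ} {ξ t : ℝ} (h : NotVal m ξ t) (v : Pr m) : 0 < |t - rv ξ v| := by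
  rw [abs_pos, sub_ne_zero]
  exact h _ _ v.2.1 v.2.2.1 v.2.2.2

theorem exp_pL {m : ℕ} {ξ t : ℝ} (h : NotVal m ξ t) (v : Pr m) : Real.exp (-pL ξ t v) = |t - rv ξ v| := by
  rw [pL, neg_neg, Real.exp_log (dist_pos h v)]

theorem coeff_le_ph1 {m : ℕ} (v : Pr m) (i : ℕ) : |(v.1.1.coeff i : ℝ)| ≤ ph v :=
  (coeff_le_hgt _ i).trans (by exact_mod_cast le_max_left _ _)

theorem coeff_le_ph2 {m : ℕ} (v : Pr m) (i : ℕ) : |(v.1.2.coeff i : ℝ)| ≤ ph v :=
  (coeff_le_hgt _ i).trans (by exact_mod_cast le_max_right _ _)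

theorem ph_le {m : ℕ} (v : Pr m) {H : ℝ} (hH : 0 ≤ H) (h1 : ∀ i, |(v.1.1.coeff i : ℝ)| ≤ H)
    (h2 : ∀ i, |(v.1.2.coeff i : ℝ)| ≤ H) : (ph v : ℝ) ≤ H := by
  rw [ph]
  push_cast
  exact max_le (hgt_le hH h1) (hgt_le hH h2)

theorem finite_pX {m : ℕ} (B : ℝ) : {v : Pr m | pX v ≤ B}.Finite := by
  obtain ⟨N, hN⟩ := exists_nat_ge (Real.exp B)
  have h2 : (Set.pi (Set.univ : Set (Fin (m + 1) × Fin 2)) fun _ => Set.Icc (-(N : ℤ)) N).Finite :=
    Set.Finite.pi fun _ => Set.finite_Icc _ _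
  refine Set.Finite.of_finite_image (f := fun (v : Pr m) (i : Fin (m + 1) × Fin 2) =>
    if i.2 = 0 then v.1.1.coeff i.1 else v.1.2.coeff i.1) (h2.subset ?_) ?_
  · rintro _ ⟨v, hv, rfl⟩ i -
    have h4 := Real.exp_le_exp.2 (show pX v ≤ B from hv)
    rw [exp_pX] at h4
    have h3 : |((if i.2 = 0 then v.1.1.coeff i.1 else v.1.2.coeff i.1 : ℤ) : ℝ)| ≤ N := by
      split_ifs
      · exact (coeff_le_ph1 v _).trans (h4.trans hN)
      · exact (coeff_le_ph2 v _).trans (h4.trans hN)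
    rw [abs_le] at h3
    constructor
    · have := h3.1
      exact_mod_cast this
    · have := h3.2
      exact_mod_cast this
  · intro u _ v _ huv
    apply Subtype.ext
    apply Prod.ext
    · ext i
      by_cases hi : i ≤ m
      · have h5 := congrFun huv (⟨i, by omega⟩, 0)
        simpa using h5
      · have hA := u.2.2.1
        have hB := v.2.2.1
        rw [coeff_eq_zero_of_natDegree_lt (by omega), coeff_eq_zero_of_natDegree_lt (by omega)]
    · ext i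
      by_cases hi : i ≤ m
      · have h5 := congrFun huv (⟨i, by omega⟩, 1)
        simpa using h5
      · have hA := u.2.2.2
        have hB := v.2.2.2
        rw [coeff_eq_zero_of_natDegree_lt (by omega), coeff_eq_zero_of_natDegree_lt (by omega)]

theorem rfScales_eq {m : ℕ} {ξ t : ℝ} (h : NotVal m ξ t) (w : ℝ) :
    rfScales m ξ t w = goodScales (pX (m := m)) (pL ξ t) w := by
  ext x
  constructor
  · rintro ⟨P, Q, h1, h2, h3, h4, h5, h6⟩
    refine ⟨⟨(P, Q), h1, h2, h3⟩, ?_, ?_⟩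
    · rw [← Real.exp_le_exp, exp_pX]
      exact ph_le _ (Real.exp_pos _).le h4 h5
    · rw [← neg_le_neg_iff, ← Real.exp_le_exp, exp_pL h]
      rw [← Real.exp_mul] at h6
      have e1 : x * -w = -(w * x) := by ring
      rw [e1] at h6
      exact h6
  · rintro ⟨v, h1, h2⟩
    rw [← Real.exp_le_exp, exp_pX] at h1
    refine ⟨v.1.1, v.1.2, v.2.1, v.2.2.1, v.2.2.2, fun i => (coeff_le_ph1 v i).trans h1,
      fun i => (coeff_le_ph2 v i).trans h1, ?_⟩
    rw [← neg_le_neg_iff, ← Real.exp_le_exp, exp_pL h] at h2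
    rw [← Real.exp_mul]
    have e1 : -(w * x) = x * -w := by ring
    rw [e1] at h2
    exact h2

theorem coeff_mul_le {m : ℕ} {P Q : ℤ[X]} (hP : P.natDegree ≤ m) (hQ : Q.natDegree ≤ m) {A B : ℝ} (hA : 0 ≤ A)
    (hB : 0 ≤ B) (h1 : ∀ i, |(P.coeff i : ℝ)| ≤ A) (h2 : ∀ i, |(Q.coeff i : ℝ)| ≤ B) (k : ℕ) :
    |((P * Q).coeff k : ℝ)| ≤ (2 * m + 1) * (A * B) := by
  by_cases hk : k ≤ 2 * m
  · rw [coeff_mul]
    push_cast
    refine (Finset.abs_sum_le_sum_abs _ _).trans ?_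
    refine (Finset.sum_le_card_nsmul _ _ (A * B) ?_).trans ?_
    · intro x _
      rw [abs_mul]
      exact mul_le_mul (h1 _) (h2 _) (abs_nonneg _) hA
    · rw [Finset.Nat.card_antidiagonal, nsmul_eq_mul]
      push_cast
      have : (k : ℝ) ≤ 2 * m := by exact_mod_cast hk
      gcongr
  · rw [coeff_eq_zero_of_natDegree_lt (lt_of_le_of_lt natDegree_mul_le (by omega))]
    rw [Int.cast_zero, abs_zero]
    positivity

theorem abs_aeval_le {m : ℕ} (ξ : ℝ) {P : ℤ[X]} (hP : P.natDegree ≤ m) {H : ℝ}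
    (h : ∀ i, |(P.coeff i : ℝ)| ≤ H) : |aeval ξ P| ≤ ((m + 1) * max 1 |ξ| ^ m) * H := by
  rw [aeval_eq_sum_range' (show P.natDegree < m + 1 by omega)]
  have hH : 0 ≤ H := (abs_nonneg _).trans (h 0)
  refine (Finset.abs_sum_le_sum_abs _ _).trans ?_
  calc ∑ i ∈ Finset.range (m + 1), |P.coeff i • ξ ^ i| ≤ ∑ _i ∈ Finset.range (m + 1), H * max 1 |ξ| ^ m := by
        apply Finset.sum_le_sum
        intro i hi
        rw [Finset.mem_range] at hi
        rw [zsmul_eq_mul, abs_mul, abs_pow]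
        refine mul_le_mul (h i) ?_ (by positivity) hH
        exact (pow_le_pow_left₀ (abs_nonneg _) (le_max_right _ _) i).trans
          (pow_le_pow_right₀ (le_max_left _ _) (by omega))
    _ = _ := by
        rw [Finset.sum_const, Finset.card_range, nsmul_eq_mul]
        push_cast
        ring

/-- two different values -/
theorem val_sep {m : ℕ} {ξ : ℝ} {κ c : ℝ} (hκ : 0 ≤ κ) (hc : 0 < c)
    (hM : Pool.Agent.W472.AC.MeasP ξ (2 * m) κ c) :
    ∃ c' : ℝ, 0 < c' ∧ ∀ u v : Pr m, rv ξ u ≠ rv ξ v → c' ≤ ((ph u : ℝ) * ph v) ^ (κ + 1) * |rv ξ u - rv ξ v| := by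
  obtain ⟨M, hMd⟩ : ∃ M : ℝ, M = (m + 1) * max 1 |ξ| ^ m := ⟨_, rfl⟩
  have hM1 : 1 ≤ M := by
    have h1 : (1 : ℝ) ≤ max 1 |ξ| ^ m := one_le_pow₀ (le_max_left _ _)
    have h2 : (0 : ℝ) ≤ m := Nat.cast_nonneg m
    rw [hMd]
    nlinarith
  obtain ⟨K, hK⟩ : ∃ K : ℝ, K = 2 * (2 * m + 1) := ⟨_, rfl⟩
  have hK1 : 1 ≤ K := by
    have h2 : (0 : ℝ) ≤ m := Nat.cast_nonneg m
    rw [hK]
    linarith
  refine ⟨c / (K ^ κ * M ^ 2), by positivity, fun u v huv => ?_⟩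
  have hu := one_le_ph u
  have hv := one_le_ph v
  obtain ⟨D, hD⟩ : ∃ D : ℤ[X], D = u.1.1 * v.1.2 - v.1.1 * u.1.2 := ⟨_, rfl⟩
  -- the denominators do not vanish
  have hne : ∀ v : Pr m, aeval ξ v.1.2 ≠ 0 := by
    intro v h0
    have h1 := hM v.1.2 v.2.1 (by have := v.2.2.2; omega) (ph v) (one_le_ph v) (coeff_le_ph2 v)
    rw [h0, abs_zero, mul_zero] at h1
    linarith
  have hval : aeval ξ D = aeval ξ u.1.2 * aeval ξ v.1.2 * (rv ξ u - rv ξ v) := by
    have h1 := hne u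
    have h2 := hne v
    rw [hD, map_sub, map_mul, map_mul, rv, rv]
    field_simp
  have hD0 : D ≠ 0 := by
    intro h0
    rw [h0, map_zero, eq_comm, mul_eq_zero, mul_eq_zero, sub_eq_zero] at hval
    rcases hval with (h | h) | h
    · exact hne u h
    · exact hne v h
    · exact huv h
  have hDd : D.natDegree ≤ 2 * m := by
    rw [hD]
    refine (natDegree_sub_le _ _).trans (max_le ?_ ?_)
    · refine natDegree_mul_le.trans ?_
      have := u.2.2.1
      have := v.2.2.2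
      omega
    · refine natDegree_mul_le.trans ?_
      have := v.2.2.1
      have := u.2.2.2
      omega
  have hDc : ∀ k, |(D.coeff k : ℝ)| ≤ K * (ph u * ph v) := by
    intro k
    rw [hD, coeff_sub]
    push_cast
    refine (abs_sub _ _).trans ?_
    have h1 := coeff_mul_le u.2.2.1 v.2.2.2 (by linarith) (by linarith) (coeff_le_ph1 u) (coeff_le_ph2 v) k
    have h2 := coeff_mul_le v.2.2.1 u.2.2.2 (by linarith) (by linarith) (coeff_le_ph1 v) (coeff_le_ph2 u) k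
    rw [hK]
    linarith
  have huv1 : (1 : ℝ) ≤ ph u * ph v := by nlinarith
  have h1 := hM D hD0 hDd (K * (ph u * ph v)) (by nlinarith) hDc
  have h2 := abs_aeval_le ξ u.2.2.2 (coeff_le_ph2 u)
  have h3 := abs_aeval_le ξ v.2.2.2 (coeff_le_ph2 v)
  rw [← hMd] at h2 h3
  rw [hval, abs_mul, abs_mul] at h1
  rw [div_le_iff₀ (by positivity)]
  calc c ≤ (K * (ph u * ph v)) ^ κ * (|aeval ξ u.1.2| * |aeval ξ v.1.2| * |rv ξ u - rv ξ v|) := h1
    _ ≤ (K * (ph u * ph v)) ^ κ * ((M * ph u) * (M * ph v) * |rv ξ u - rv ξ v|) := by gcongr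
    _ = ((ph u : ℝ) * ph v) ^ (κ + 1) * |rv ξ u - rv ξ v| * (K ^ κ * M ^ 2) := by
        rw [Real.mul_rpow (by linarith) (by positivity), Real.rpow_add (by positivity), Real.rpow_one]
        ring

theorem rf_bound {m : ℕ} {ξ t : ℝ} {κ c : ℝ} (hκ : 0 ≤ κ) (hc : 0 < c)
    (hM : Pool.Agent.W472.AC.MeasP ξ (2 * m) κ c) (h : NotVal m ξ t) :
    ∃ C : ℝ, ∀ u v : Pr m, pX u < pX v → pL ξ t u < pL ξ t v → pL ξ t u ≤ (κ + 1) * pX v + (κ + 1) * pX u + C := by
  obtain ⟨c', hc', h1⟩ := val_sep (m := m) hκ hc hM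
  refine ⟨Real.log 2 - Real.log c', fun u v h3 h4 => ?_⟩
  have hu := dist_pos h u
  have hv := dist_pos h v
  have hlt : |t - rv ξ v| < |t - rv ξ u| := by
    rw [← exp_pL h v, ← exp_pL h u]
    exact Real.exp_lt_exp.2 (by linarith)
  have hne : rv ξ u ≠ rv ξ v := by
    intro h5
    rw [h5] at hlt
    exact lt_irrefl _ hlt
  have h5 := h1 u v hne
  have h6 : |rv ξ u - rv ξ v| ≤ 2 * |t - rv ξ u| := by
    have h7 : rv ξ u - rv ξ v = (t - rv ξ v) - (t - rv ξ u) := by ring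
    rw [h7]
    refine (abs_sub _ _).trans ?_
    linarith
  have h7 := h5.trans (mul_le_mul_of_nonneg_left h6 (by positivity))
  have h8 := Real.log_le_log hc' h7
  have hu0 : (0 : ℝ) < ph u := by linarith [one_le_ph u]
  have hv0 : (0 : ℝ) < ph v := by linarith [one_le_ph v]
  rw [Real.log_mul (by positivity) (by positivity), Real.log_rpow (by positivity),
    Real.log_mul hu0.ne' hv0.ne', Real.log_mul (by norm_num) hu.ne'] at h8
  simp only [pL, pX]
  linarith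

/-- **Upper bound.** -/
theorem rf_upper {m : ℕ} {ξ t : ℝ} {κ : ℝ} (hκ : 0 ≤ κ)
    (hM : ∀ ε : ℝ, 0 < ε → ∃ c : ℝ, 0 < c ∧ Pool.Agent.W472.AC.MeasP ξ (2 * m) (κ + ε) c)
    (h : NotVal m ξ t) {w : ℝ} (hw : 2 * (κ + 1) < w) : lowerDensity (rfScales m ξ t w) ≤ (κ + 1) / w := by
  rw [rfScales_eq h]
  refine dens_simple (A := κ + 1) (B := κ + 1) (by linarith) (by linarith) (by linarith) finite_pX
    (fun ε hε => ?_)
  obtain ⟨c, hc, hM'⟩ := hM ε hε
  obtain ⟨C, hC⟩ := rf_bound (t := t) (by linarith) hc hM' h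
  refine ⟨C, fun u v h1 h2 _ _ => (hC u v h1 h2).trans (le_of_eq ?_)⟩
  ring

/-- a value -/
theorem density_one_rf {m : ℕ} {ξ t : ℝ} (h : ¬ NotVal m ξ t) (w : ℝ) : lowerDensity (rfScales m ξ t w) = 1 := by
  rw [NotVal] at h
  push Not at h
  obtain ⟨P, Q, hQ, h1, h2, h3⟩ := h
  obtain ⟨v, hv⟩ : ∃ v : Pr m, v = ⟨(P, Q), hQ, h1, h2⟩ := ⟨_, rfl⟩
  obtain ⟨B, hB⟩ : ∃ B : ℝ, B = pX v := ⟨_, rfl⟩
  have hB0 : 0 ≤ B := by rw [hB]; exact Real.log_nonneg (one_le_ph v)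
  have hmem : ∀ x, B ≤ x → x ∈ rfScales m ξ t w := by
    intro x hx
    have h4 : (ph v : ℝ) ≤ Real.exp x := by
      rw [← exp_pX, ← hB]
      exact Real.exp_le_exp.2 hx
    refine ⟨P, Q, hQ, h1, h2, fun i => ?_, fun i => ?_, ?_⟩
    · have := coeff_le_ph1 v i
      rw [hv] at this h4
      exact this.trans h4
    · have := coeff_le_ph2 v i
      rw [hv] at this h4
      exact this.trans h4
    · rw [h3, sub_self, abs_zero]
      positivity
  apply le_antisymm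
  · refine lowerDensity_le (x := fun n : ℕ => (n : ℝ)) tendsto_natCast_atTop_atTop ?_
    intro η hη N
    refine ⟨N, le_rfl, ?_⟩
    refine (vol_le _ (Nat.cast_nonneg N)).trans ?_
    have : (0 : ℝ) ≤ N := Nat.cast_nonneg N
    nlinarith
  · apply le_lowerDensity
    intro η hη
    refine ⟨max B (B / η), fun T hT => ?_⟩
    have h1 : B ≤ T := (le_max_left _ _).trans hT
    have h2 : B / η ≤ T := (le_max_right _ _).trans hT
    rw [div_le_iff₀' hη] at h2
    have h3 := meas_lower (S := rfScales m ξ t w) hB0 h1 (fun y hy => hmem y hy.1)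
    have h4 : 0 ≤ (volume (rfScales m ξ t w ∩ Icc 0 B)).toReal := ENNReal.toReal_nonneg
    linarith

end Pool.Agent.H595.RF
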