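import Pool.Agent.H595.RF.RF1
import Pool.Agent.H595.Dens.Gen

/-!
# Numbers near the values of rational functions: one step of the construction
-/

set_option autoImplicit false

namespace Pool.Agent.H595.RF

open Polynomial MeasureTheory Filter Topology Set Pool.Agent.H595.Dens Pool.Agent.H595.Alg

/-- rational functions of degree `m` in lowest terms -/
def Gd (m : ℕ) (P Q : ℤ[X]) : Prop := Q ≠ 0 ∧ P.natDegree ≤ m ∧ Q.natDegree ≤ m ∧
  (P.coeff m ≠ 0 ∨ Q.coeff m ≠ 0) ∧ ∀ α : ℂ, aeval α P ≠ 0 ∨ aeval α Q ≠ 0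

/-- the polynomial with given coefficients -/
noncomputable def mk {m : ℕ} (a : Fin (m + 1) → ℤ) : ℤ[X] := ∑ i : Fin (m + 1), monomial (i : ℕ) (a i)

theorem mk_coeff {m : ℕ} (a : Fin (m + 1) → ℤ) (k : ℕ) : (mk a).coeff k = if h : k < m + 1 then a ⟨k, h⟩ else 0 := by
  rw [mk, finsetSum_coeff]
  split_ifs with hk
  · rw [Finset.sum_eq_single ⟨k, hk⟩]
    · rw [coeff_monomial, if_pos rfl]
    · intro i _ hi
      rw [coeff_monomial, if_neg]
      intro h3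
      exact hi (Fin.ext h3)
    · intro h3
      exact absurd (Finset.mem_univ _) h3
  · refine Finset.sum_eq_zero fun i _ => ?_
    rw [coeff_monomial, if_neg]
    have := i.2
    omega

theorem mk_natDegree {m : ℕ} (a : Fin (m + 1) → ℤ) : (mk a).natDegree ≤ m :=
  natDegree_le_iff_coeff_eq_zero.2 fun k hk => by rw [mk_coeff, dif_neg (by omega)]

theorem mk_aeval {m : ℕ} (a : Fin (m + 1) → ℤ) (x : ℝ) : aeval x (mk a) = ∑ i : Fin (m + 1), (a i : ℝ) * x ^ (i : ℕ) := by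
  rw [mk, map_sum]
  refine Finset.sum_congr rfl fun i _ => ?_
  rw [aeval_monomial]
  simp

theorem mk_abs {m : ℕ} {a : Fin (m + 1) → ℤ} {H : ℝ} (hH : 0 ≤ H) (h : ∀ i, |(a i : ℝ)| ≤ H) (k : ℕ) :
    |((mk a).coeff k : ℝ)| ≤ H := by
  rw [mk_coeff]
  split_ifs
  · exact h _
  · simpa using hH

theorem mk_eq_zero {m : ℕ} {a : Fin (m + 1) → ℤ} (h : mk a = 0) (i : Fin (m + 1)) : a i = 0 := by
  have h1 := mk_coeff a i
  rw [h, coeff_zero, dif_pos i.2] at h1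
  exact h1.symm

/-- proportional pairs -/
theorem prop_zero {m : ℕ} {P Q : ℤ[X]} (h : Gd m P Q) {U V : ℤ[X]} (hU : U.natDegree ≤ m) (hV : V.natDegree ≤ m)
    (h0 : P.coeff m ≠ 0 ∧ U.coeff m = 0 ∨ Q.coeff m ≠ 0 ∧ V.coeff m = 0) (heq : U * Q = V * P) :
    U = 0 ∧ V = 0 := by
  have hinj : Function.Injective (Int.castRingHom ℚ) := (Int.castRingHom ℚ).injective_int
  obtain ⟨p, hp⟩ : ∃ p : ℚ[X], p = P.map (Int.castRingHom ℚ) := ⟨_, rfl⟩
  obtain ⟨q, hq⟩ : ∃ q : ℚ[X], q = Q.map (Int.castRingHom ℚ) := ⟨_, rfl⟩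
  obtain ⟨u, hu⟩ : ∃ u : ℚ[X], u = U.map (Int.castRingHom ℚ) := ⟨_, rfl⟩
  obtain ⟨v, hv⟩ : ∃ v : ℚ[X], v = V.map (Int.castRingHom ℚ) := ⟨_, rfl⟩
  have hcop : IsCoprime p q := by
    refine (Polynomial.isCoprime_iff_aeval_ne_zero_of_isAlgClosed ℚ ℂ p q).2 fun a => ?_
    have h1 : ∀ A : ℤ[X], aeval a (A.map (Int.castRingHom ℚ)) = aeval a A := fun A => aeval_map_algebraMap ℚ a A
    rw [hp, hq, h1, h1]
    exact h.2.2.2.2 a
  have hq0 : q ≠ 0 := by
    rw [hq, Polynomial.map_ne_zero_iff hinj]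
    exact h.1
  have he : u * q = v * p := by
    rw [hu, hq, hv, hp, ← Polynomial.map_mul, ← Polynomial.map_mul, heq]
  have hdvd : q ∣ v := hcop.symm.dvd_of_dvd_mul_right ⟨u, by rw [← he]; ring⟩
  obtain ⟨g, hg⟩ := hdvd
  have hug : u = g * p := by
    apply mul_right_cancel₀ hq0
    rw [he, hg]
    ring
  have hg0 : g = 0 := by
    by_contra hg0
    have hud : u.natDegree ≤ m := by rw [hu]; exact natDegree_map_le.trans hU
    have hvd : v.natDegree ≤ m := by rw [hv]; exact natDegree_map_le.trans hV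
    rcases h0 with ⟨h1, h2⟩ | ⟨h1, h2⟩
    · have hpm : p.coeff m ≠ 0 := by
        rw [hp, coeff_map]
        simpa using h1
      have hp0 : p ≠ 0 := fun h3 => hpm (by rw [h3, coeff_zero])
      have hpd : p.natDegree = m := le_antisymm (by rw [hp]; exact natDegree_map_le.trans h.2.1)
        (le_natDegree_of_ne_zero hpm)
      rw [hug, natDegree_mul hg0 hp0, hpd] at hud
      obtain ⟨b, hb⟩ := natDegree_eq_zero.1 (show g.natDegree = 0 by omega)
      have h3 : u.coeff m = b * p.coeff m := by rw [hug, ← hb, coeff_C_mul]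
      rw [hu, coeff_map, h2, map_zero, eq_comm, mul_eq_zero] at h3
      rcases h3 with h3 | h3
      · exact hg0 (by rw [← hb, h3, C_0])
      · exact hpm h3
    · have hpm : q.coeff m ≠ 0 := by
        rw [hq, coeff_map]
        simpa using h1
      have hpd : q.natDegree = m := le_antisymm (by rw [hq]; exact natDegree_map_le.trans h.2.2.1)
        (le_natDegree_of_ne_zero hpm)
      rw [hg, natDegree_mul hq0 hg0, hpd] at hvd
      obtain ⟨b, hb⟩ := natDegree_eq_zero.1 (show g.natDegree = 0 by omega)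
      have h3 : v.coeff m = b * q.coeff m := by rw [hg, ← hb, mul_comm, coeff_C_mul]
      rw [hv, coeff_map, h2, map_zero, eq_comm, mul_eq_zero] at h3
      rcases h3 with h3 | h3
      · exact hg0 (by rw [← hb, h3, C_0])
      · exact hpm h3
  rw [hg0, zero_mul] at hug
  rw [hg0, mul_zero] at hg
  constructor
  · rw [hu] at hug
    exact (Polynomial.map_eq_zero_iff hinj).1 hug
  · rw [hv] at hg
    exact (Polynomial.map_eq_zero_iff hinj).1 hg

/-- the choice of `k` -/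
theorem exists_k {m : ℕ} {P Q : ℤ[X]} (h : Gd m P Q) {U V : ℤ[X]} (hU : U.natDegree ≤ m) (hV : V.natDegree ≤ m)
    (hne : U * Q ≠ V * P) (K : ℕ) : ∃ k : ℕ, K ≤ k ∧ k ≤ K + 2 * m ∧
      ∀ α : ℂ, aeval α (U + (k : ℤ[X]) * P) ≠ 0 ∨ aeval α (V + (k : ℤ[X]) * Q) ≠ 0 := by
  by_contra hcon
  push Not at hcon
  obtain ⟨D, hD⟩ : ∃ D : ℤ[X], D = U * Q - V * P := ⟨_, rfl⟩
  have hD0 : D ≠ 0 := by rw [hD]; exact sub_ne_zero.2 hne
  have hinj : Function.Injective (Int.castRingHom ℂ) := (Int.castRingHom ℂ).injective_int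
  have hDm : D.map (Int.castRingHom ℂ) ≠ 0 := (Polynomial.map_ne_zero_iff hinj).2 hD0
  have hDd : (D.map (Int.castRingHom ℂ)).natDegree ≤ 2 * m := by
    refine natDegree_map_le.trans ?_
    rw [hD]
    refine (natDegree_sub_le _ _).trans (max_le ?_ ?_)
    · refine natDegree_mul_le.trans ?_
      have := h.2.2.1
      omega
    · refine natDegree_mul_le.trans ?_
      have := h.2.1
      omega
  choose! f hf1 hf2 using fun (k : ℕ) (hk : K ≤ k ∧ k ≤ K + 2 * m) => hcon k hk.1 hk.2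
  have hcard : ((D.map (Int.castRingHom ℂ)).roots.toFinset).card < (Finset.Icc K (K + 2 * m)).card := by
    rw [Nat.card_Icc]
    have h1 := Multiset.toFinset_card_le (D.map (Int.castRingHom ℂ)).roots
    have h2 := card_roots' (D.map (Int.castRingHom ℂ))
    omega
  obtain ⟨k, hk, l, hl, hkl, hfe⟩ := Finset.exists_ne_map_eq_of_card_lt_of_maps_to hcard (f := f) (by
    intro k hk
    rw [Finset.coe_Icc, Set.mem_Icc] at hk
    have h1 := hf1 k hk
    have h2 := hf2 k hk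
    rw [Finset.mem_coe, Multiset.mem_toFinset, mem_roots hDm, IsRoot, eval_map, ← algebraMap_int_eq,
      ← aeval_def, hD, map_sub, map_mul, map_mul]
    rw [map_add, map_mul, map_natCast] at h1 h2
    linear_combination (aeval (f k) Q) * h1 - (aeval (f k) P) * h2)
  rw [Finset.mem_Icc] at hk hl
  have h1 := hf1 k hk
  have h2 := hf2 k hk
  have h3 := hf1 l hl
  have h4 := hf2 l hl
  rw [← hfe] at h3 h4
  rw [map_add, map_mul, map_natCast] at h1 h2 h3 h4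
  have hkl' : ((k : ℂ) - l) ≠ 0 := by
    rw [sub_ne_zero]
    exact_mod_cast hkl
  have h5 : ((k : ℂ) - l) * aeval (f k) P = 0 := by linear_combination h1 - h3
  have h6 : ((k : ℂ) - l) * aeval (f k) Q = 0 := by linear_combination h2 - h4
  rcases h.2.2.2.2 (f k) with h7 | h7
  · exact h7 ((mul_eq_zero.1 h5).resolve_left hkl')
  · exact h7 ((mul_eq_zero.1 h6).resolve_left hkl')

/-- **One step.** -/
theorem step {m : ℕ} {ξ : ℝ} (hξ : ∀ P : ℤ[X], P ≠ 0 → aeval ξ P ≠ 0) {P Q : ℤ[X]} (h : Gd m P Q) :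
    ∃ C : ℝ, 1 ≤ C ∧ ∀ H : ℕ, 1 ≤ H → ∃ P' Q' : ℤ[X], Gd m P' Q' ∧ (∀ i, |(P'.coeff i : ℝ)| ≤ C * H) ∧
      (∀ i, |(Q'.coeff i : ℝ)| ≤ C * H) ∧
      0 < |aeval ξ P' / aeval ξ Q' - aeval ξ P / aeval ξ Q| ∧
      |aeval ξ P' / aeval ξ Q' - aeval ξ P / aeval ξ Q| ≤ C / (H : ℝ) ^ (2 * m + 1) := by
  obtain ⟨t, ht⟩ : ∃ t : ℝ, t = aeval ξ P / aeval ξ Q := ⟨_, rfl⟩
  have hQξ : aeval ξ Q ≠ 0 := hξ Q h.1
  have hPt : aeval ξ P = t * aeval ξ Q := by rw [ht]; field_simp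
  obtain ⟨η, hη⟩ : ∃ η : Fin (m + 1) × Fin 2 → ℝ, η = fun x : Fin (m + 1) × Fin 2 =>
      if x.2 = 0 then ξ ^ (x.1 : ℕ) else -(t * ξ ^ (x.1 : ℕ)) := ⟨_, rfl⟩
  obtain ⟨i₀, hi₀⟩ : ∃ i₀ : Fin (m + 1) × Fin 2, P.coeff m ≠ 0 ∧ i₀ = (⟨m, by omega⟩, 0) ∨
      Q.coeff m ≠ 0 ∧ i₀ = (⟨m, by omega⟩, 1) := by
    rcases h.2.2.2.1 with h1 | h1
    · exact ⟨_, Or.inl ⟨h1, rfl⟩⟩
    · exact ⟨_, Or.inr ⟨h1, rfl⟩⟩
  obtain ⟨C₁, hC₁, hdir⟩ := dirichlet η i₀ (2 * m) (by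
    rw [Fintype.card_prod, Fintype.card_fin, Fintype.card_fin]
    ring)
  obtain ⟨M, hMd⟩ : ∃ M : ℝ, M = (m + 1) * max 1 |ξ| ^ m := ⟨_, rfl⟩
  have hM0 : 0 < M := by rw [hMd]; positivity
  have hQa : 0 < |aeval ξ Q| := abs_pos.2 hQξ
  obtain ⟨a, ha⟩ := exists_nat_ge ((M + 1) / |aeval ξ Q|)
  have ha1 : M + 1 ≤ a * |aeval ξ Q| := by rwa [div_le_iff₀ hQa] at ha
  have ha0 : 1 ≤ a := by
    rcases Nat.eq_zero_or_pos a with h1 | h1
    · rw [h1, Nat.cast_zero, zero_mul] at ha1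
      linarith
    · exact h1
  obtain ⟨b, hb⟩ : ∃ b : ℕ, b = max (hgt P) (hgt Q) := ⟨_, rfl⟩
  have hbP : ∀ i, |(P.coeff i : ℝ)| ≤ b := fun i => (coeff_le_hgt _ i).trans (by
    rw [hb]; exact_mod_cast le_max_left _ _)
  have hbQ : ∀ i, |(Q.coeff i : ℝ)| ≤ b := fun i => (coeff_le_hgt _ i).trans (by
    rw [hb]; exact_mod_cast le_max_right _ _)
  obtain ⟨C, hC⟩ : ∃ C : ℝ, C = 1 + (a + 2 * m) * b + C₁ := ⟨_, rfl⟩
  have hC1 : 1 ≤ C := by
    rw [hC]
    have : (0 : ℝ) ≤ (a + 2 * m) * b := by positivity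
    linarith
  refine ⟨C, hC1, fun H hH => ?_⟩
  have hHr : (1 : ℝ) ≤ H := by exact_mod_cast hH
  obtain ⟨u, hu0, hui, huH, huη⟩ := hdir H hH
  obtain ⟨U, hU⟩ : ∃ U : ℤ[X], U = mk fun i => u (i, 0) := ⟨_, rfl⟩
  obtain ⟨V, hV⟩ : ∃ V : ℤ[X], V = mk fun i => u (i, 1) := ⟨_, rfl⟩
  have hUd : U.natDegree ≤ m := by rw [hU]; exact mk_natDegree _
  have hVd : V.natDegree ≤ m := by rw [hV]; exact mk_natDegree _
  have hUH : ∀ i, |(U.coeff i : ℝ)| ≤ H := fun i => by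
    rw [hU]
    exact mk_abs (by linarith) (fun i => huH _) i
  have hVH : ∀ i, |(V.coeff i : ℝ)| ≤ H := fun i => by
    rw [hV]
    exact mk_abs (by linarith) (fun i => huH _) i
  have hsum : ∑ x, (u x : ℝ) * η x = aeval ξ U - t * aeval ξ V := by
    rw [Fintype.sum_prod_type, hU, hV, mk_aeval, mk_aeval, Finset.mul_sum, ← Finset.sum_sub_distrib]
    refine Finset.sum_congr rfl fun i _ => ?_
    rw [Fin.sum_univ_two, hη]
    simp only [if_true, Fin.isValue, one_ne_zero, if_false]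
    ring
  have h0 : P.coeff m ≠ 0 ∧ U.coeff m = 0 ∨ Q.coeff m ≠ 0 ∧ V.coeff m = 0 := by
    rcases hi₀ with ⟨h1, h2⟩ | ⟨h1, h2⟩
    · left
      refine ⟨h1, ?_⟩
      rw [hU, mk_coeff, dif_pos (by omega), ← h2]
      exact hui
    · right
      refine ⟨h1, ?_⟩
      rw [hV, mk_coeff, dif_pos (by omega), ← h2]
      exact hui
  have hne : U * Q ≠ V * P := by
    intro heq
    obtain ⟨h1, h2⟩ := prop_zero h hUd hVd h0 heq
    apply hu0
    funext x
    obtain ⟨i, s⟩ := x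
    fin_cases s
    · exact mk_eq_zero (hU ▸ h1) i
    · exact mk_eq_zero (hV ▸ h2) i
  have hform : aeval ξ U - t * aeval ξ V ≠ 0 := by
    intro h1
    have h2 := hξ (U * Q - V * P) (sub_ne_zero.2 hne)
    apply h2
    rw [map_sub, map_mul, map_mul, hPt]
    linear_combination (aeval ξ Q) * h1
  obtain ⟨k, hk1, hk2, hk3⟩ := exists_k h hUd hVd hne (a * H)
  have hk0 : 1 ≤ k := le_trans (Nat.one_le_iff_ne_zero.2 (Nat.mul_ne_zero (by omega) (by omega))) hk1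
  have hkr1 : (a : ℝ) * H ≤ k := by exact_mod_cast hk1
  have hkr2 : (k : ℝ) ≤ a * H + 2 * m := by exact_mod_cast hk2
  have hcast : ∀ A : ℤ[X], ((k : ℤ[X]) * A) = Polynomial.C (k : ℤ) * A := fun A => by simp
  have hVξ : |aeval ξ V| ≤ M * H := by
    rw [hMd]
    exact abs_aeval_le ξ hVd hVH
  have hden : (H : ℝ) ≤ |aeval ξ (V + (k : ℤ[X]) * Q)| := by
    rw [map_add, map_mul, map_natCast]
    have h1 : |(k : ℝ) * aeval ξ Q| - |aeval ξ V| ≤ |aeval ξ V + k * aeval ξ Q| := by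
      have := abs_sub_abs_le_abs_sub ((k : ℝ) * aeval ξ Q) (-aeval ξ V)
      rw [abs_neg, sub_neg_eq_add, add_comm (k * aeval ξ Q)] at this
      exact this
    rw [abs_mul, abs_of_nonneg (by positivity : (0 : ℝ) ≤ k)] at h1
    have h2 : (M + 1) * H ≤ k * |aeval ξ Q| := by
      calc (M + 1) * H ≤ (a * |aeval ξ Q|) * H := by gcongr
        _ = (a * H) * |aeval ξ Q| := by ring
        _ ≤ k * |aeval ξ Q| := by gcongr
    linarith
  have hcoef : ∀ A B : ℤ[X], (∀ i, |(A.coeff i : ℝ)| ≤ H) → (∀ i, |(B.coeff i : ℝ)| ≤ b) → ∀ i,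
      |((A + (k : ℤ[X]) * B).coeff i : ℝ)| ≤ C * H := by
    intro A B hA hB i
    rw [hcast, coeff_add, coeff_C_mul]
    push_cast
    refine (abs_add_le _ _).trans ?_
    rw [abs_mul, abs_of_nonneg (by positivity : (0 : ℝ) ≤ k)]
    have h1 : (k : ℝ) * |(B.coeff i : ℝ)| ≤ (a * H + 2 * m) * b := by
      have := hB i
      gcongr
    have h2 : ((a : ℝ) * H + 2 * m) * b ≤ ((a + 2 * m) * b) * H := by
      have h3 : (0 : ℝ) ≤ 2 * m * b := by positivity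
      nlinarith
    have h3 := hA i
    rw [hC]
    have h4 : 0 ≤ C₁ * H := by positivity
    linarith
  have hdeg : ∀ A B : ℤ[X], A.natDegree ≤ m → B.natDegree ≤ m → (A + (k : ℤ[X]) * B).natDegree ≤ m := by
    intro A B hA hB
    refine (natDegree_add_le _ _).trans (max_le hA ?_)
    rw [hcast]
    exact (natDegree_C_mul_le _ _).trans hB
  have hdiff : aeval ξ (U + (k : ℤ[X]) * P) / aeval ξ (V + (k : ℤ[X]) * Q) - aeval ξ P / aeval ξ Q =
      (aeval ξ U - t * aeval ξ V) / aeval ξ (V + (k : ℤ[X]) * Q) := by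
    have h1 : aeval ξ (V + (k : ℤ[X]) * Q) ≠ 0 := by
      intro h2
      rw [h2, abs_zero] at hden
      linarith
    rw [← ht, div_sub' h1]
    congr 1
    rw [map_add, map_mul, map_natCast, map_add, map_mul, map_natCast, hPt]
    ring
  refine ⟨U + (k : ℤ[X]) * P, V + (k : ℤ[X]) * Q, ⟨?_, hdeg _ _ hUd h.2.1, hdeg _ _ hVd h.2.2.1, ?_, hk3⟩,
    hcoef _ _ hUH hbP, hcoef _ _ hVH hbQ, ?_, ?_⟩
  · intro h1
    rw [h1, map_zero, abs_zero] at hden
    linarith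
  · rcases h0 with ⟨h1, h2⟩ | ⟨h1, h2⟩
    · left
      rw [hcast, coeff_add, coeff_C_mul, h2, zero_add]
      exact mul_ne_zero (by exact_mod_cast (by omega : k ≠ 0)) h1
    · right
      rw [hcast, coeff_add, coeff_C_mul, h2, zero_add]
      exact mul_ne_zero (by exact_mod_cast (by omega : k ≠ 0)) h1
  · rw [hdiff, abs_div]
    exact div_pos (abs_pos.2 hform) (by linarith)
  · rw [hdiff, abs_div, ← hsum]
    have hH0 : (0 : ℝ) < H := by linarith
    have h1 : |∑ x, (u x : ℝ) * η x| / |aeval ξ (V + (k : ℤ[X]) * Q)| ≤ (C₁ / (H : ℝ) ^ (2 * m)) / H :=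
      div_le_div₀ (div_nonneg hC₁.le (pow_nonneg hH0.le _)) huη hH0 hden
    refine h1.trans ?_
    rw [div_div, ← pow_succ]
    refine div_le_div_of_nonneg_right ?_ (pow_nonneg hH0.le _)
    rw [hC]
    have : (0 : ℝ) ≤ (a + 2 * m) * b := by positivity
    linarith

end Pool.Agent.H595.RF
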