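import Pool.Agent.H595.RF.RF2
import Pool.Agent.H595.Dens.Constr2
import Pool.Agent.H595.Gel.Gel4

/-!
# Numbers near the values of rational functions: the construction
-/

set_option autoImplicit false

namespace Pool.Agent.H595.RF

open Polynomial MeasureTheory Filter Topology Set Pool.Agent.H595.Dens Pool.Agent.H595.Alg Pool.Agent.H595.Gel

/-- states -/
structure RSt where
  P : ℤ[X]
  Q : ℤ[X]
  B : ℝ
  δ : ℝ

/-- the value -/
noncomputable def RSt.v (ξ : ℝ) (s : RSt) : ℝ := aeval ξ s.P / aeval ξ s.Q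

/-- the initial state -/
theorem exists_init (m : ℕ) (ξ : ℝ) {a b : ℝ} (hab : a < b) : ∃ P Q : ℤ[X], Gd m P Q ∧
    a < aeval ξ P / aeval ξ Q ∧ aeval ξ P / aeval ξ Q < b := by
  obtain ⟨q, hq⟩ := exists_nat_gt (1 / (b - a))
  have hba : 0 < b - a := by linarith
  have hq0 : (0 : ℝ) < q := lt_trans (by positivity) hq
  rw [div_lt_iff₀ hba] at hq
  obtain ⟨p, hp⟩ : ∃ p : ℤ, p = ⌊q * a - ξ ^ m⌋ + 1 := ⟨_, rfl⟩
  have hp1 : q * a - ξ ^ m < p := by rw [hp]; push_cast; exact Int.lt_floor_add_one _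
  have hp2 : (p : ℝ) ≤ q * a - ξ ^ m + 1 := by
    rw [hp]
    push_cast
    have := Int.floor_le (q * a - ξ ^ m)
    linarith
  have hqz : (q : ℤ) ≠ 0 := by
    have : q ≠ 0 := by
      rintro rfl
      simp at hq0
    exact_mod_cast this
  have e1 : aeval ξ (X ^ m + C p : ℤ[X]) = ξ ^ m + p := by
    rw [map_add, map_pow, aeval_X, aeval_C]
    simp
  have e2 : aeval ξ (C (q : ℤ) : ℤ[X]) = (q : ℝ) := by
    rw [aeval_C]
    simp
  refine ⟨X ^ m + C p, C (q : ℤ), ⟨?_, ?_, ?_, ?_, fun α => Or.inr ?_⟩, ?_, ?_⟩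
  · exact C_ne_zero.2 hqz
  · refine (natDegree_add_le _ _).trans (max_le (natDegree_X_pow_le m) ?_)
    rw [natDegree_C]
    exact Nat.zero_le _
  · rw [natDegree_C]
    exact Nat.zero_le _
  · rcases Nat.eq_zero_or_pos m with hm | hm
    · right
      rw [hm, coeff_C_zero]
      exact hqz
    · left
      rw [coeff_add, coeff_X_pow, if_pos rfl, coeff_C, if_neg (by omega)]
      norm_num
  · rw [aeval_C]
    simpa using hqz
  · rw [e1, e2, lt_div_iff₀ hq0]
    linarith
  · rw [e1, e2, div_lt_iff₀ hq0]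
    linarith

/-- the polynomial `P - Q Y` -/
noncomputable def bi (P Q : ℤ[X]) : ℤ[X][X] := C P - C Q * X

theorem bi_coeff (P Q : ℤ[X]) (j : ℕ) : (bi P Q).coeff j = if j = 0 then P else if j = 1 then -Q else 0 := by
  rw [bi, coeff_sub, coeff_C, coeff_C_mul, coeff_X]
  rcases j with _ | _ | j
  · simp
  · simp
  · simp

theorem val_bi (z t : ℝ) (P Q : ℤ[X]) : Gel.val z t (bi P Q) = ((aeval z P - aeval z Q * t : ℝ) : ℂ) := by
  have h1 : Gel.val z t (bi P Q) = eval₂RingHom (ez z) t (bi P Q) := rfl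
  rw [h1, bi, map_sub, map_mul]
  have h2 : ∀ A : ℤ[X], eval₂RingHom (ez (z : ℂ)) (t : ℂ) (C A) = ((aeval z A : ℝ) : ℂ) := fun A => by
    rw [coe_eval₂RingHom, eval₂_C, ez_apply, cast_aeval]
  rw [h2, h2, coe_eval₂RingHom, eval₂_X]
  push_cast
  ring

theorem bi_ne {P Q : ℤ[X]} (hQ : Q ≠ 0) : bi P Q ≠ 0 := by
  intro h
  have h1 := bi_coeff P Q 1
  rw [h, coeff_zero, if_neg (by norm_num), if_pos rfl] at h1
  exact hQ (neg_eq_zero.1 h1.symm)

theorem bi_deg {m : ℕ} {P Q : ℤ[X]} (hP : P.natDegree ≤ m) (hQ : Q.natDegree ≤ m) (j : ℕ) :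
    ((bi P Q).coeff j).natDegree ≤ m := by
  rw [bi_coeff]
  split_ifs
  · exact hP
  · rw [natDegree_neg]
    exact hQ
  · simp

theorem bi_natDegree (P Q : ℤ[X]) : (bi P Q).natDegree ≤ 1 := by
  refine natDegree_le_iff_coeff_eq_zero.2 fun j hj => ?_
  rw [bi_coeff, if_neg (by omega), if_neg (by omega)]

theorem bi_height {P Q : ℤ[X]} {B : ℝ} (hB : 0 ≤ B) (hP : ∀ i, |(P.coeff i : ℝ)| ≤ B)
    (hQ : ∀ i, |(Q.coeff i : ℝ)| ≤ B) (j i : ℕ) : |(((bi P Q).coeff j).coeff i : ℝ)| ≤ B := by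
  rw [bi_coeff]
  split_ifs
  · exact hP i
  · rw [coeff_neg]
    push_cast
    rw [abs_neg]
    exact hQ i
  · simpa using hB

/-- **Construction.** -/
theorem exists_rf {ξ : ℝ} (hz : PolyM ξ) (m : ℕ) {a b : ℝ} (hab : a < b) :
    ∃ t : ℝ, a < t ∧ t < b ∧ (∀ M N, NoRel M N ξ t) ∧
      ∀ w : ℝ, 2 * m + 1 ≤ w → (2 * m + 1) / w ≤ lowerDensity (rfScales m ξ t w) := by
  have hξ : ∀ P : ℤ[X], P ≠ 0 → aeval ξ P ≠ 0 := by
    intro P hP h0
    obtain ⟨κ, c, -, hc, h⟩ := hz P.natDegree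
    have h1 := h P hP le_rfl (hgt P) (by exact_mod_cast one_le_hgt hP) (coeff_le_hgt P)
    rw [h0, abs_zero, mul_zero] at h1
    linarith
  obtain ⟨P₀, Q₀, hG₀, ha₀, hb₀⟩ := exists_init m ξ hab
  obtain ⟨τ₀, hτ₀⟩ : ∃ τ : ℝ, τ = aeval ξ P₀ / aeval ξ Q₀ := ⟨_, rfl⟩
  rw [← hτ₀] at ha₀ hb₀
  obtain ⟨δ₀, hδ₀, hδα, hδβ⟩ : ∃ δ : ℝ, 0 < δ ∧ a < τ₀ - 2 * δ ∧ τ₀ + 2 * δ < b := by
    refine ⟨min (τ₀ - a) (b - τ₀) / 4, ?_, ?_, ?_⟩
    · have : 0 < min (τ₀ - a) (b - τ₀) := lt_min (by linarith) (by linarith)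
      linarith
    · have := min_le_left (τ₀ - a) (b - τ₀)
      linarith
    · have := min_le_right (τ₀ - a) (b - τ₀)
      linarith
  obtain ⟨B₀, hB₀⟩ : ∃ B : ℝ, B = 1 + hgt P₀ + hgt Q₀ := ⟨_, rfl⟩
  have hP₀ : (0 : ℝ) ≤ hgt P₀ := Nat.cast_nonneg _
  have hQ₀ : (0 : ℝ) ≤ hgt Q₀ := Nat.cast_nonneg _
  obtain ⟨s, hs0, hsP, hsR⟩ := exists_chain (α := RSt)
    (fun s => Gd m s.P s.Q ∧ 1 ≤ s.B ∧ (∀ i, |(s.P.coeff i : ℝ)| ≤ s.B) ∧ (∀ i, |(s.Q.coeff i : ℝ)| ≤ s.B) ∧
      0 < s.δ ∧ a < s.v ξ - 2 * s.δ ∧ s.v ξ + 2 * s.δ < b)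
    (fun n s s' => 0 < |s'.v ξ - s.v ξ| ∧ |s'.v ξ - s.v ξ| ≤ s.δ ∧ s'.δ = |s'.v ξ - s.v ξ| / 4 ∧
      ((n : ℝ) + 1) * Real.log s.B ≤ Real.log s'.B ∧ (n : ℝ) * Real.log 2 ≤ Real.log s'.B ∧
      (2 * m + 1) * Real.log s'.B - Real.log s'.B / (n + 1) ≤ -Real.log (2 * |s'.v ξ - s.v ξ|))
    ⟨P₀, Q₀, B₀, δ₀⟩ ⟨hG₀, by simp only; rw [hB₀]; linarith,
      fun i => (coeff_le_hgt _ i).trans (by simp only; rw [hB₀]; linarith),
      fun i => (coeff_le_hgt _ i).trans (by simp only; rw [hB₀]; linarith), hδ₀, by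
        show a < aeval ξ P₀ / aeval ξ Q₀ - 2 * δ₀
        rw [← hτ₀]
        exact hδα, by
        show aeval ξ P₀ / aeval ξ Q₀ + 2 * δ₀ < b
        rw [← hτ₀]
        exact hδβ⟩ (by
      rintro n ⟨P, Q, B, δ⟩ ⟨h1, h2, h3, h4, h5, h6, h7⟩
      simp only at h1 h2 h3 h4 h5
      obtain ⟨C, hC1, hst⟩ := step hξ h1
      obtain ⟨N₁, hN₁⟩ := exists_nat_ge (C / δ)
      obtain ⟨N₂, hN₂⟩ := exists_nat_ge (B ^ (n + 1))
      obtain ⟨G, hG⟩ : ∃ G : ℝ, G = (n + 1) * ((2 * m + 1) * Real.log C + Real.log (2 * C)) := ⟨_, rfl⟩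
      obtain ⟨N₃, hN₃⟩ := exists_nat_ge (Real.exp G)
      obtain ⟨H, hH⟩ : ∃ H : ℕ, H = 1 + N₁ + N₂ + 2 ^ n + N₃ := ⟨_, rfl⟩
      have hH1 : 1 ≤ H := by
        rw [hH]
        generalize 2 ^ n = y
        omega
      have hHr : (1 : ℝ) ≤ H := by exact_mod_cast hH1
      have hH0 : (0 : ℝ) < H := by linarith
      have hHN₁ : (N₁ : ℝ) ≤ H := by
        have : N₁ ≤ H := by
          rw [hH]
          generalize 2 ^ n = y
          omega
        exact_mod_cast this
      have hHN₂ : (N₂ : ℝ) ≤ H := by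
        have : N₂ ≤ H := by
          rw [hH]
          generalize 2 ^ n = y
          omega
        exact_mod_cast this
      have hHN₃ : (N₃ : ℝ) ≤ H := by
        have : N₃ ≤ H := by
          rw [hH]
          generalize 2 ^ n = y
          omega
        exact_mod_cast this
      have hH2 : (2 : ℝ) ^ n ≤ H := by
        have : 2 ^ n ≤ H := by
          rw [hH]
          generalize 2 ^ n = y
          omega
        exact_mod_cast this
      obtain ⟨P', Q', g1, g2, g3, g4, g5⟩ := hst H hH1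
      have hCH : (H : ℝ) ≤ C * H := by nlinarith
      have hC0 : 0 < C := by linarith
      have hdδ : |aeval ξ P' / aeval ξ Q' - aeval ξ P / aeval ξ Q| ≤ δ := by
        refine g5.trans ?_
        rw [div_le_iff₀ (by positivity)]
        have h8 := hN₁.trans hHN₁
        rw [div_le_iff₀' h5] at h8
        refine h8.trans (mul_le_mul_of_nonneg_left ?_ h5.le)
        exact le_self_pow₀ hHr (by omega)
      have g6 := abs_le.1 (le_refl |aeval ξ P' / aeval ξ Q' - aeval ξ P / aeval ξ Q|)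
      refine ⟨⟨P', Q', C * H, |aeval ξ P' / aeval ξ Q' - aeval ξ P / aeval ξ Q| / 4⟩,
        ⟨g1, by simp only; nlinarith, g2, g3, by simp only; linarith, ?_, ?_⟩, g4, hdδ, rfl, ?_, ?_, ?_⟩
      · show a < aeval ξ P' / aeval ξ Q' - 2 * (|aeval ξ P' / aeval ξ Q' - aeval ξ P / aeval ξ Q| / 4)
        have h8 : a < aeval ξ P / aeval ξ Q - 2 * δ := h6
        linarith [g6.1]
      · show aeval ξ P' / aeval ξ Q' + 2 * (|aeval ξ P' / aeval ξ Q' - aeval ξ P / aeval ξ Q| / 4) < b
        have h8 : aeval ξ P / aeval ξ Q + 2 * δ < b := h7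
        linarith [g6.2]
      · show ((n : ℝ) + 1) * Real.log B ≤ Real.log (C * H)
        have h8 : B ^ (n + 1) ≤ C * H := hN₂.trans (hHN₂.trans hCH)
        have h9 := Real.log_le_log (by positivity) h8
        rw [Real.log_pow] at h9
        push_cast at h9
        exact h9
      · show (n : ℝ) * Real.log 2 ≤ Real.log (C * H)
        have h9 := Real.log_le_log (by positivity) (hH2.trans hCH)
        rwa [Real.log_pow] at h9
      · show (2 * m + 1) * Real.log (C * H) - Real.log (C * H) / (n + 1) ≤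
          -Real.log (2 * |aeval ξ P' / aeval ξ Q' - aeval ξ P / aeval ξ Q|)
        have h8 : Real.log (2 * |aeval ξ P' / aeval ξ Q' - aeval ξ P / aeval ξ Q|) ≤
            Real.log (2 * C) - (2 * m + 1) * Real.log H := by
          have h9 := Real.log_le_log (by positivity) (mul_le_mul_of_nonneg_left g5 (by norm_num : (0 : ℝ) ≤ 2))
          rw [← mul_div_assoc, Real.log_div (by positivity) (by positivity), Real.log_pow] at h9
          push_cast at h9
          exact h9
        have h9 : Real.log (C * H) = Real.log C + Real.log H := Real.log_mul (by positivity) (by positivity)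
        have h10 : G ≤ Real.log (C * H) := by
          rw [← Real.log_exp G]
          exact Real.log_le_log (Real.exp_pos _) (hN₃.trans (hHN₃.trans hCH))
        have h11 : (2 * m + 1) * Real.log C + Real.log (2 * C) ≤ Real.log (C * H) / (n + 1) := by
          rw [le_div_iff₀ (by positivity)]
          rw [hG] at h10
          linarith
        rw [h9] at h11 ⊢
        linarith)
  obtain ⟨T, hT⟩ : ∃ T : ℕ → ℝ, T = fun n => (s n).v ξ := ⟨_, rfl⟩
  have hTT : ∀ n, T n = (s n).v ξ := fun n => by rw [hT]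
  obtain ⟨t, ht⟩ := exists_limit (T := T) (fun n => by rw [hT]; exact (hsR n).1) (fun n => by
    rw [hT]
    have h1 := (hsR (n + 1)).2.1
    rw [(hsR n).2.2.1] at h1
    exact h1)
  -- `t` in the interval
  have htI : a < t ∧ t < b := by
    have h1 := (ht 0).2
    have h2 := (hsR 0).2.1
    rw [hTT, hTT, zero_add] at h1
    rw [zero_add] at h2
    have h3 := (hsP 0).2.2.2.2.2
    have h4 := abs_le.1 (h1.trans (mul_le_mul_of_nonneg_left h2 (by norm_num)))
    have h5 := (hsP 0).2.2.2.2.1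
    constructor
    · linarith [h4.1, h3.1]
    · linarith [h4.2, h3.2]
  obtain ⟨x, hx⟩ : ∃ x : ℕ → ℝ, x = fun n => Real.log (s n).B := ⟨_, rfl⟩
  obtain ⟨L, hL⟩ : ∃ L : ℕ → ℝ, L = fun n => -Real.log (2 * |T (n + 1) - T n|) := ⟨_, rfl⟩
  have hx0 : ∀ n, 0 ≤ x n := fun n => by rw [hx]; exact Real.log_nonneg (hsP n).2.1
  have hgr : ∀ n : ℕ, ((n : ℝ) + 1) * x n ≤ x (n + 1) := fun n => by rw [hx]; exact (hsR n).2.2.2.1
  have hmono : ∀ n, x n ≤ x (n + 1) := fun n => by
    refine le_trans ?_ (hgr n)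
    have h1 : (0 : ℝ) ≤ n := Nat.cast_nonneg n
    have h2 := hx0 n
    nlinarith
  have hlim : Tendsto x atTop atTop := by
    refine (tendsto_add_atTop_iff_nat 1).1 ?_
    refine tendsto_atTop_mono (fun n => (?_ : (n : ℝ) * Real.log 2 ≤ x (n + 1))) ?_
    · rw [hx]
      exact (hsR n).2.2.2.2.1
    · exact tendsto_natCast_atTop_atTop.atTop_mul_const (Real.log_pos (by norm_num))
  have hLx : ∀ n : ℕ, (2 * m + 1) * x (n + 1) - x (n + 1) / (n + 1) ≤ L n := fun n => by
    rw [hL, hx]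
    simp only [hTT]
    exact (hsR n).2.2.2.2.2
  have hdist : ∀ n, |t - T n| ≤ Real.exp (-L n) := fun n => by
    have h1 := (ht n).2
    have h2 : 0 < |T (n + 1) - T n| := by rw [hTT, hTT]; exact (hsR n).1
    rw [hL]
    simp only [neg_neg]
    rw [Real.exp_log (by positivity)]
    linarith
  have hexpx : ∀ n, Real.exp (x n) = (s n).B := fun n => by
    rw [hx]
    exact Real.exp_log (by linarith [(hsP n).2.1])
  refine ⟨t, htI.1, htI.2, fun M N => ?_, fun w hw => ?_⟩
  · -- algebraic independence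
    by_contra hcon
    obtain ⟨M', hM'⟩ : ∃ M' : ℕ, M' = M + m := ⟨_, rfl⟩
    obtain ⟨N', hN'⟩ : ∃ N' : ℕ, N' = N + 1 := ⟨_, rfl⟩
    have hcon' : ¬ NoRel M' N' ξ t := fun h => hcon (fun P hP h1 h2 =>
      h P hP (fun j => (h1 j).trans (by omega)) (by omega))
    obtain ⟨κ, c, hκ, hc, hMe⟩ := hz (2 * N' * M')
    obtain ⟨E, c', hE, hc', h⟩ := measure_of_rel (z := ξ) (t := t) (show 1 ≤ N' by omega) hκ hc hMe hcon'
    obtain ⟨A, hA⟩ : ∃ A : ℝ, A = (m + 1) * max 1 |ξ| ^ m := ⟨_, rfl⟩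
    have hA0 : 0 < A := by rw [hA]; positivity
    have key : ∀ n, Real.log c' ≤ (E + 1) * x n + Real.log A - L n := by
      intro n
      obtain ⟨g1, g2, g3, g4, -⟩ := hsP n
      have hQ0 : aeval ξ (s n).Q ≠ 0 := hξ _ g1.1
      have hval : aeval ξ (s n).P - aeval ξ (s n).Q * t = -(aeval ξ (s n).Q * (t - T n)) := by
        rw [hTT, RSt.v]
        field_simp
        ring
      have htn := (ht n).1
      have h1 := h (bi (s n).P (s n).Q) (bi_ne g1.1) (fun j => (bi_deg g1.2.1 g1.2.2.1 j).trans (by omega))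
        ((bi_natDegree _ _).trans (by omega)) (by
          rw [val_bi, Complex.ofReal_ne_zero, hval, neg_ne_zero]
          exact mul_ne_zero hQ0 (abs_pos.1 htn)) (s n).B g2 (bi_height (by linarith) g3 g4)
      rw [val_bi, Complex.norm_real, Real.norm_eq_abs, hval, abs_neg, abs_mul] at h1
      have h2 := abs_aeval_le ξ g1.2.2.1 g4
      rw [← hA] at h2
      have hB0 : 0 < (s n).B := by linarith
      have h3 : c' ≤ (s n).B ^ E * ((A * (s n).B) * Real.exp (-L n)) := by
        refine h1.trans ?_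
        have h4 := hdist n
        gcongr
      have h5 := Real.log_le_log hc' h3
      rw [Real.log_mul (by positivity) (by positivity), Real.log_mul (by positivity) (by positivity),
        Real.log_mul (by positivity) (by positivity), Real.log_rpow hB0, Real.log_exp] at h5
      have h6 : x n = Real.log (s n).B := by rw [hx]
      rw [h6]
      linarith
    obtain ⟨n₀, hn₀⟩ := exists_nat_ge (2 * (E + 2))
    obtain ⟨n₁, hn₁⟩ := eventually_atTop.1 (hlim.eventually (eventually_gt_atTop (Real.log A - Real.log c')))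
    obtain ⟨n, hn⟩ : ∃ n : ℕ, n = n₀ + n₁ + 1 := ⟨_, rfl⟩
    have h1 := key n
    have h2 := hLx n
    have h3 := hgr n
    have h4 := hn₁ n (by omega)
    have h5 := hx0 n
    have h6 := hx0 (n + 1)
    have hnr : (n₀ : ℝ) ≤ n := by exact_mod_cast (by omega : n₀ ≤ n)
    have hn1 : (1 : ℝ) ≤ n := by exact_mod_cast (by omega : 1 ≤ n)
    have h7 : x (n + 1) / (n + 1) ≤ x (n + 1) / 2 := by
      apply div_le_div_of_nonneg_left h6 (by norm_num)
      linarith
    have h8 : (0 : ℝ) ≤ 2 * m * x (n + 1) := by positivity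
    have h9 : (E + 2) * x n ≤ x (n + 1) / 2 := by
      have h10 : 2 * (E + 2) * x n ≤ ((n : ℝ) + 1) * x n := by
        apply mul_le_mul_of_nonneg_right _ h5
        linarith
      linarith
    nlinarith
  · -- the density
    have hw0 : 0 < w := by
      have : (0 : ℝ) ≤ m := Nat.cast_nonneg m
      linarith
    by_contra hcon
    push Not at hcon
    obtain ⟨η, hη⟩ : ∃ η : ℝ, η = (2 * m + 1) / w - lowerDensity (rfScales m ξ t w) := ⟨_, rfl⟩
    have hη0 : 0 < η := by rw [hη]; linarith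
    obtain ⟨N, hN⟩ := exists_nat_ge (2 / (η * w))
    have hN1 : 1 / ((N : ℝ) + 1) / w ≤ η / 2 := by
      rw [div_le_iff₀ (by positivity)] at hN
      rw [div_div, div_le_div_iff₀ (by positivity) (by norm_num)]
      nlinarith [mul_pos hη0 hw0]
    have h1 := dens_super (S := rfScales m ξ t w) (x := fun n => x (N + n)) (L := fun n => L (N + n) / w)
      (D := (2 * m + 1) / w - η / 2) (F := 0) (E := 0) (by
        have : (2 * m + 1) / w ≤ 1 := by rw [div_le_one hw0]; exact hw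
        linarith) le_rfl le_rfl (fun n => hx0 _) (fun n => hmono _) (fun n => by
          refine le_trans ?_ (hgr (N + n))
          apply mul_le_mul_of_nonneg_right _ (hx0 _)
          push_cast
          have : (0 : ℝ) ≤ N := Nat.cast_nonneg N
          linarith) ((tendsto_add_atTop_iff_nat N).2 hlim |>.congr (fun n => by rw [add_comm])) (fun n => by
          have h2 := hLx (N + n)
          have h3 := hx0 (N + n + 1)
          rw [zero_mul, sub_zero, sub_zero, le_div_iff₀ hw0]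
          refine le_trans ?_ h2
          show ((2 * m + 1) / w - η / 2) * x (N + n + 1) * w ≤ _
          have h4 : ((2 * m + 1) / w - η / 2) * x (N + n + 1) * w = (2 * m + 1) * x (N + n + 1) -
              η / 2 * w * x (N + n + 1) := by
            field_simp
          rw [h4]
          have h5 : x (N + n + 1) / (((N + n : ℕ) : ℝ) + 1) ≤ η / 2 * w * x (N + n + 1) := by
            have h6 : 1 / (((N + n : ℕ) : ℝ) + 1) ≤ η / 2 * w := by
              rw [div_le_iff₀ hw0] at hN1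
              refine le_trans ?_ hN1
              push_cast
              apply div_le_div_of_nonneg_left (by norm_num) (by positivity)
              have : (0 : ℝ) ≤ n := Nat.cast_nonneg n
              linarith
            have h7 := mul_le_mul_of_nonneg_right h6 h3
            rw [one_div, ← div_eq_inv_mul] at h7
            exact h7
          linarith) (fun n y hy1 hy2 => by
          have hy1' : x (N + n) ≤ y := hy1
          rw [lt_div_iff₀ hw0] at hy2
          obtain ⟨g1, g2, g3, g4, -⟩ := hsP (N + n)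
          have hB : (s (N + n)).B ≤ Real.exp y := by
            rw [← hexpx]
            exact Real.exp_le_exp.2 hy1'
          refine ⟨(s (N + n)).P, (s (N + n)).Q, g1.1, g1.2.1, g1.2.2.1, fun i => (g3 i).trans hB,
            fun i => (g4 i).trans hB, ?_⟩
          have h5 := hdist (N + n)
          rw [hTT, RSt.v] at h5
          refine h5.trans ?_
          rw [← Real.exp_mul]
          apply Real.exp_le_exp.2
          linarith)
    linarith

end Pool.Agent.H595.RF
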